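import Pool.Agent.H28.QG

set_option autoImplicit false

open Set Real Pool.Agent.H28.QG

namespace Pool.Agent.Results.MP_630a53_an.Bipartite

lemma ve {m n : ℕ} (c z : ℝ → ℝ) (hz : z 1 ≠ 0) (u : Fin m ⊕ Fin n → ℝ) :
    VE (fun e : Fin m × Fin n => (Sum.inl e.1 : Fin m ⊕ Fin n)) (fun e => Sum.inr e.2)
      (fun _ => 1) 0 c z u ↔ (∀ i, ∑ j, u (.inr j) = n * (c 1 * u (.inl i))) ∧
        ∀ j, ∑ i, u (.inl i) = m * (c 1 * u (.inr j)) := by
  simp only [VE, Sum.forall, Fintype.sum_prod_type]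
  refine and_congr (forall_congr' fun i => ?_) (forall_congr' fun j => ?_)
  · simp [← Finset.sum_div, hz, sub_eq_zero]
  · simp [← Finset.sum_div, hz, sub_eq_zero]

lemma bump {m : ℕ} (hm : 2 ≤ m) (i : Fin m) : ∃ a : Fin m → ℝ, a i = 1 ∧ ∑ k, a k = 0 ∧
    ∀ k, a k ^ 2 ≤ 1 := by
  haveI : Nontrivial (Fin m) := Fin.nontrivial_iff_two_le.2 hm
  obtain ⟨j, hj⟩ := exists_ne i
  refine ⟨fun k => (if k = i then 1 else 0) - if k = j then 1 else 0, by simp [hj.symm],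
    by simp, fun k => ?_⟩
  simp only
  split_ifs <;> norm_num

theorem result (m n : ℕ) (hm : 2 ≤ m) (hn : 2 ≤ n) (e : Fin m × Fin n) (x : ℝ)
    (hx : x ∈ Icc (0 : ℝ) 1) :
    (e, x) ∈ Hot (fun e : Fin m × Fin n => (Sum.inl e.1 : Fin m ⊕ Fin n)) (fun e => Sum.inr e.2)
      (fun _ => 1) 0 := by
  have p : π / 2 ≠ 0 := by positivity
  have F := fundp p
  have z1 : sin (π / 2 * 1) / (π / 2) ≠ 0 := by simp
  obtain ⟨a, a1, a2, a3⟩ := bump hm e.1
  obtain ⟨b, b1, b2, b3⟩ := bump hn e.2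
  have q := cos_sq_add_sin_sq (π / 2 * x)
  have E1 := ((ve (fun x => cos (π / 2 * x)) (fun x => sin (π / 2 * x) / (π / 2)) z1
    (Sum.elim (fun i => cos (π / 2 * x) * a i) fun j => sin (π / 2 * x) * b j)).2
    ⟨fun i => by simp [← Finset.mul_sum, b2], fun i => by simp [← Finset.mul_sum, a2]⟩).eig F
    (fun _ => ⟨zero_le_one, z1⟩) ⟨e, by
      simp only [Sum.elim_inl, Sum.elim_inr, a1, b1, mul_one]
      by_contra h
      push Not at h
      rw [h.1, h.2] at q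
      norm_num at q⟩
  refine ⟨hx, _, _, ⟨⟨_, E1⟩, 0, ⟨by positivity, _, ((ve _ _ one_ne_zero 1).2 (by simp)).eig fund0
    (fun _ => ⟨zero_le_one, one_ne_zero⟩) ⟨e, by simp⟩⟩, ?_⟩, E1, Or.inl fun f y _ => ?_⟩
  · rintro l ⟨hl, ψ, h⟩
    by_contra h0
    obtain ⟨c, z, G, z0, c0, c1, c2, -, c4⟩ := low hl h0
    have z2 : z 1 ≠ 0 := by rw [c4]; positivity
    obtain ⟨u, hu, u0, -⟩ := h.ve G fun _ => ⟨zero_le_one, z2⟩
    obtain ⟨h1, h2⟩ := (ve c z z2 u).1 hu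
    have m0 : (m : ℝ) ≠ 0 := by positivity
    have n0 : (n : ℝ) ≠ 0 := by positivity
    have c3 : c 1 ^ 2 - 1 ≠ 0 := fun h => c2 (by nlinarith)
    have r1 : ∀ i, u (.inl i) = u (.inl e.1) := fun i =>
      mul_left_cancel₀ c1.ne' (mul_left_cancel₀ n0 ((h1 i).symm.trans (h1 _)))
    have r2 : ∀ j, u (.inr j) = u (.inr e.2) := fun j =>
      mul_left_cancel₀ c1.ne' (mul_left_cancel₀ m0 ((h2 j).symm.trans (h2 _)))
    have s1 := h1 e.1
    have s2 := h2 e.2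
    simp only [r1, r2, Finset.sum_const, Finset.card_univ, Fintype.card_fin, nsmul_eq_mul] at s1 s2
    have t1 := mul_left_cancel₀ n0 s1
    have t2 := mul_left_cancel₀ m0 s2
    have w : u (.inl e.1) = 0 := (mul_eq_zero.1 (by linear_combination -t2 - c 1 * t1 :
      (c 1 ^ 2 - 1) * u (.inl e.1) = 0)).resolve_left c3
    refine u0 (funext fun v => ?_)
    rcases v with i | j
    · rw [r1, w]; rfl
    · rw [r2, t1, w, mul_zero]; rfl
  · simp only [ef, Sum.elim_inl, Sum.elim_inr, a1, b1, mul_one, cos_pi_div_two, sin_pi_div_two,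
      zero_mul, sub_zero]
    have r : ∀ A B : ℝ, A / (1 / (π / 2)) * (B / (π / 2)) = A * B := fun A B => by field_simp
    rw [r, r]
    nlinarith [cos_sq_add_sin_sq (π / 2 * y), mul_le_mul_of_nonneg_left (a3 f.1)
      (sq_nonneg (cos (π / 2 * x))), mul_le_mul_of_nonneg_left (b3 f.2)
      (sq_nonneg (sin (π / 2 * x))), sq_nonneg (cos (π / 2 * x) * a f.1 - cos (π / 2 * y)),
      sq_nonneg (sin (π / 2 * x) * b f.2 - sin (π / 2 * y))]

end Pool.Agent.Results.MP_630a53_an.Bipartite
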